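import Pool.Agent.H91.RF.TargetsR

/-!
# MP_609556_an, module HV: the one-dimensional solution with step datum
-/

open Set Filter Topology

namespace Pool.Agent.H31.RF

open Pool.Agent.H91.RF

theorem HV (h1 : T_SOL1) : T_HV := by
  intro f K hf hK
  obtain ⟨Q, hQ⟩ := h1 f (fun z => if z < 0 then 1 else 0) K hf hK
    (by
      intro a b hab
      by_cases hb : b < 0
      · have ha : a < 0 := lt_of_le_of_lt hab hb
        simp [ha, hb]
      · by_cases ha : a < 0 <;> simp [ha, hb])
    (by
      intro z
      by_cases hz : z < 0 <;> simp [hz])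
    (by
      refine tendsto_const_nhds.congr' ?_
      filter_upwards [eventually_lt_atBot (0 : ℝ)] with z hz
      simp [hz])
    (by
      refine tendsto_const_nhds.congr' ?_
      filter_upwards [eventually_ge_atTop (0 : ℝ)] with z hz
      simp [not_lt.2 hz])
  exact ⟨Q, ⟨hQ.c2, hQ.eqn, hQ.cont, hQ.contz, hQ.contzz, hQ.neg, hQ.bot, hQ.top, hQ.mild⟩⟩

end Pool.Agent.H31.RF
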