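import Pool.Agent.H91.RF.TargetsR
import Pool.Agent.H91.RF.TargetsA

/-!
# MP_609556_an, module LBX: lower bound by moving boxes, pulled case
-/

open Set Filter Topology Metric

namespace Pool.Agent.H31.RF

open Pool.Agent.H91.RF Pool.Agent.H91.RD

/-- the second derivative along a line -/
theorem second_dir {N : ℕ} {G : E N → ℝ} (hG : ContDiff ℝ 2 G) (x v : E N) {F' : ℝ → ℝ} {F'' : ℝ}
    (h1 : ∀ s, HasDerivAt (fun s : ℝ => G (x + s • v)) (F' s) s) (h2 : HasDerivAt F' F'' 0) :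
    iteratedFDeriv ℝ 2 G x ![v, v] = F'' := by
  rw [iteratedFDeriv_two_apply]
  simp only [Matrix.cons_val_zero, Matrix.cons_val_one]
  have hline : ∀ s : ℝ, HasDerivAt (fun s : ℝ => x + s • v) v s := by
    intro s
    have := ((hasDerivAt_id s).smul_const v).const_add x
    simpa using this
  have hd : Differentiable ℝ G := hG.differentiable (by norm_num)
  have e1 : F' = fun s => fderiv ℝ G (x + s • v) v := by
    funext s
    have h3 : HasDerivAt (fun s : ℝ => G (x + s • v)) (fderiv ℝ G (x + s • v) v) s :=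
      (hd (x + s • v)).hasFDerivAt.comp_hasDerivAt s (hline s)
    exact (h1 s).unique h3
  have hd2 : Differentiable ℝ (fderiv ℝ G) :=
    (hG.fderiv_right (m := 1) (by norm_num)).differentiable (by norm_num)
  have h4 : HasDerivAt (fun s : ℝ => fderiv ℝ G (x + s • v)) (fderiv ℝ (fderiv ℝ G) x v) 0 := by
    have h5 : HasFDerivAt (fderiv ℝ G) (fderiv ℝ (fderiv ℝ G) x) (x + (0 : ℝ) • v) := by
      rw [zero_smul, add_zero]
      exact (hd2 x).hasFDerivAt
    exact h5.comp_hasDerivAt 0 (hline 0)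
  have h6 : HasDerivAt (fun s : ℝ => fderiv ℝ G (x + s • v) v) (fderiv ℝ (fderiv ℝ G) x v v) 0 :=
    (ContinuousLinearMap.apply ℝ ℝ v).hasFDerivAt.comp_hasDerivAt (0 : ℝ) h4
  rw [e1] at h2
  exact h6.unique h2

theorem contDiff_coord {n : WithTop ℕ∞} {Φ : ℝ → ℝ} (h : ContDiff ℝ n Φ) :
    ContDiff ℝ n (fun x : E 1 => Φ (x 0)) := by
  have h1 : ContDiff ℝ n (fun x : E 1 => x 0) := by fun_prop
  exact h.comp h1

/-- Laplacian of a function of the coordinate in dimension one -/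
theorem lap_coord {Φ : ℝ → ℝ} (h : ContDiff ℝ 2 Φ) (x : E 1) :
    Laplacian.laplacian (fun x : E 1 => Φ (x 0)) x = deriv (deriv Φ) (x 0) := by
  set b := EuclideanSpace.basisFun (Fin 1) ℝ with hb
  rw [InnerProductSpace.laplacian_eq_iteratedFDeriv_orthonormalBasis _ b]
  simp only [Finset.univ_unique, Fin.default_eq_zero, Fin.isValue, Finset.sum_singleton]
  have hline : ∀ s : ℝ, (x + s • b 0) 0 = x 0 + s := by
    intro s
    simp [hb]
  have hd : Differentiable ℝ Φ := h.differentiable (by norm_num)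
  have hd1 : ContDiff ℝ 1 (deriv Φ) := by
    have : ContDiff ℝ (1 + 1) Φ := by rw [one_add_one_eq_two]; exact h
    exact (contDiff_succ_iff_deriv.1 this).2.2
  have hd2 : Differentiable ℝ (deriv Φ) := hd1.differentiable (by norm_num)
  refine second_dir (contDiff_coord h) x (b 0) (F' := fun s => deriv Φ (x 0 + s)) ?_ ?_
  · intro s
    simp only [hline]
    exact (hd (x 0 + s)).hasDerivAt.comp_const_add (x 0) s
  · have h2 := (hd2 (x 0 + 0)).hasDerivAt.comp_const_add (x 0) 0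
    rw [add_zero] at h2
    exact h2

/-- clamp to `[-R, R]` -/
noncomputable def cl (R ζ : ℝ) : ℝ := max (-R) (min R ζ)

/-- the box profile -/
noncomputable def bx (δ μ w k R z0 : ℝ) (τ z : ℝ) : ℝ :=
  δ * Real.exp (μ * τ - w / 2 * cl R (z - z0 - w * τ)) * Real.cos (k * cl R (z - z0 - w * τ))

/-- the smooth version -/
noncomputable def bs (δ μ w k z0 : ℝ) (τ z : ℝ) : ℝ :=
  δ * Real.exp (μ * τ - w / 2 * (z - z0 - w * τ)) * Real.cos (k * (z - z0 - w * τ))

/-- its sine companion -/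
noncomputable def bn (δ μ w k z0 : ℝ) (τ z : ℝ) : ℝ :=
  δ * Real.exp (μ * τ - w / 2 * (z - z0 - w * τ)) * Real.sin (k * (z - z0 - w * τ))

theorem cl_mem {R : ℝ} (hR : 0 ≤ R) (ζ : ℝ) : |cl R ζ| ≤ R := by
  unfold cl
  rw [abs_le]
  refine ⟨le_max_left _ _, ?_⟩
  exact max_le (by linarith) (min_le_left _ _)

theorem cl_in {R ζ : ℝ} (h : |ζ| ≤ R) : cl R ζ = ζ := by
  unfold cl
  rw [abs_le] at h
  rw [min_eq_right h.2, max_eq_right h.1]

theorem cl_out {R ζ : ℝ} (h : R ≤ |ζ|) (hR : 0 ≤ R) : |cl R ζ| = R := by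
  unfold cl
  rcases le_abs.1 h with h1 | h1
  · rw [min_eq_left h1, max_eq_right (by linarith), abs_of_nonneg hR]
  · rw [min_eq_right (by linarith), max_eq_left (by linarith), abs_neg, abs_of_nonneg hR]

theorem cos_cl_nonneg {k R : ℝ} (hk : k * R = Real.pi / 2) (hk0 : 0 < k) (hR : 0 ≤ R) (ζ : ℝ) :
    0 ≤ Real.cos (k * cl R ζ) := by
  have h1 := cl_mem hR ζ
  have h2 : |k * cl R ζ| ≤ Real.pi / 2 := by
    rw [abs_mul, abs_of_pos hk0, ← hk]
    exact mul_le_mul_of_nonneg_left h1 hk0.le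
  rw [abs_le] at h2
  exact Real.cos_nonneg_of_mem_Icc ⟨h2.1, h2.2⟩

theorem bx_nonneg {δ μ w k R z0 : ℝ} (hδ : 0 ≤ δ) (hk : k * R = Real.pi / 2) (hk0 : 0 < k)
    (hR : 0 ≤ R) (τ z : ℝ) : 0 ≤ bx δ μ w k R z0 τ z := by
  unfold bx
  have := cos_cl_nonneg hk hk0 hR (z - z0 - w * τ)
  positivity

theorem bx_le {δ μ w k R z0 : ℝ} (hδ : 0 ≤ δ) (hμ : μ ≤ 0) (hw : 0 ≤ w)
    (hR : 0 ≤ R) {τ : ℝ} (hτ : 0 ≤ τ) (z : ℝ) :
    bx δ μ w k R z0 τ z ≤ δ * Real.exp (w / 2 * R) := by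
  unfold bx
  have h1 := (abs_le.1 (cl_mem hR (z - z0 - w * τ))).1
  have h2 : μ * τ - w / 2 * cl R (z - z0 - w * τ) ≤ w / 2 * R := by
    have h3 : μ * τ ≤ 0 := mul_nonpos_of_nonpos_of_nonneg hμ hτ
    have h4 : w / 2 * (-R) ≤ w / 2 * cl R (z - z0 - w * τ) :=
      mul_le_mul_of_nonneg_left h1 (by linarith)
    linarith
  have h5 := Real.exp_le_exp.2 h2
  have h6 := Real.cos_le_one (k * cl R (z - z0 - w * τ))
  have h7 : 0 ≤ δ * Real.exp (μ * τ - w / 2 * cl R (z - z0 - w * τ)) := by positivity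
  calc δ * Real.exp (μ * τ - w / 2 * cl R (z - z0 - w * τ)) *
        Real.cos (k * cl R (z - z0 - w * τ))
      ≤ δ * Real.exp (μ * τ - w / 2 * cl R (z - z0 - w * τ)) * 1 :=
        mul_le_mul_of_nonneg_left h6 h7
    _ ≤ δ * Real.exp (w / 2 * R) := by
        rw [mul_one]
        exact mul_le_mul_of_nonneg_left h5 hδ

theorem bx_out {δ μ w k R z0 τ z : ℝ} (hk : k * R = Real.pi / 2) (hk0 : 0 < k) (hR : 0 ≤ R)
    (h : R ≤ |z - z0 - w * τ|) : bx δ μ w k R z0 τ z = 0 := by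
  unfold bx
  have h1 := cl_out h hR
  have h2 : Real.cos (k * cl R (z - z0 - w * τ)) = 0 := by
    rw [← Real.cos_abs, abs_mul, abs_of_pos hk0, h1, hk, Real.cos_pi_div_two]
  rw [h2, mul_zero]

theorem bx_in {δ μ w k R z0 τ z : ℝ} (h : |z - z0 - w * τ| ≤ R) :
    bx δ μ w k R z0 τ z = bs δ μ w k z0 τ z := by
  unfold bx bs
  rw [cl_in h]

theorem continuous_bx (δ μ w k R z0 : ℝ) :
    Continuous (fun p : ℝ × ℝ => bx δ μ w k R z0 p.1 p.2) := by
  unfold bx cl
  fun_prop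

theorem contDiff_bs (δ μ w k z0 τ : ℝ) : ContDiff ℝ 2 (bs δ μ w k z0 τ) := by
  unfold bs
  fun_prop

theorem bs_z (δ μ w k z0 τ z : ℝ) : HasDerivAt (bs δ μ w k z0 τ)
    (-(w / 2) * bs δ μ w k z0 τ z - k * bn δ μ w k z0 τ z) z := by
  unfold bs bn
  have h1 : HasDerivAt (fun z : ℝ => z - z0 - w * τ) 1 z := by
    simpa using ((hasDerivAt_id z).sub_const z0).sub_const (w * τ)
  have h2 : HasDerivAt (fun z : ℝ => μ * τ - w / 2 * (z - z0 - w * τ)) (-(w / 2 * 1)) z :=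
    (h1.const_mul (w / 2)).const_sub (μ * τ)
  have h3 : HasDerivAt (fun z : ℝ => k * (z - z0 - w * τ)) (k * 1) z := h1.const_mul k
  have h4 := (h2.exp.const_mul δ).mul h3.cos
  refine h4.congr_deriv ?_
  ring

theorem bn_z (δ μ w k z0 τ z : ℝ) : HasDerivAt (bn δ μ w k z0 τ)
    (-(w / 2) * bn δ μ w k z0 τ z + k * bs δ μ w k z0 τ z) z := by
  unfold bs bn
  have h1 : HasDerivAt (fun z : ℝ => z - z0 - w * τ) 1 z := by
    simpa using ((hasDerivAt_id z).sub_const z0).sub_const (w * τ)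
  have h2 : HasDerivAt (fun z : ℝ => μ * τ - w / 2 * (z - z0 - w * τ)) (-(w / 2 * 1)) z :=
    (h1.const_mul (w / 2)).const_sub (μ * τ)
  have h3 : HasDerivAt (fun z : ℝ => k * (z - z0 - w * τ)) (k * 1) z := h1.const_mul k
  have h4 := (h2.exp.const_mul δ).mul h3.sin
  refine h4.congr_deriv ?_
  ring

theorem bs_zz (δ μ w k z0 τ z : ℝ) : deriv (deriv (bs δ μ w k z0 τ)) z =
    (w ^ 2 / 4 - k ^ 2) * bs δ μ w k z0 τ z + w * k * bn δ μ w k z0 τ z := by
  have e1 : deriv (bs δ μ w k z0 τ) =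
      fun z => -(w / 2) * bs δ μ w k z0 τ z - k * bn δ μ w k z0 τ z := by
    funext z
    exact (bs_z δ μ w k z0 τ z).deriv
  rw [e1]
  have h1 := ((bs_z δ μ w k z0 τ z).const_mul (-(w / 2))).fun_sub
    ((bn_z δ μ w k z0 τ z).const_mul k)
  rw [h1.deriv]
  ring

theorem bs_t (δ μ w k z0 τ z : ℝ) : HasDerivAt (fun τ => bs δ μ w k z0 τ z)
    ((μ + w ^ 2 / 2) * bs δ μ w k z0 τ z + w * k * bn δ μ w k z0 τ z) τ := by
  unfold bs bn
  have h1 : HasDerivAt (fun τ : ℝ => z - z0 - w * τ) (-(w * 1)) τ :=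
    ((hasDerivAt_id τ).const_mul w).const_sub (z - z0)
  have h2 : HasDerivAt (fun τ : ℝ => μ * τ - w / 2 * (z - z0 - w * τ))
      (μ * 1 - w / 2 * (-(w * 1))) τ :=
    ((hasDerivAt_id τ).const_mul μ).sub (h1.const_mul (w / 2))
  have h3 : HasDerivAt (fun τ : ℝ => k * (z - z0 - w * τ)) (k * (-(w * 1))) τ := h1.const_mul k
  have h4 := (h2.exp.const_mul δ).mul h3.cos
  refine h4.congr_deriv ?_
  ring

/-- the comparison -/
theorem compare (h0 : T_MP0) {f : ℝ → ℝ} {K : ℝ} (hL : Lip f K) {Pv : ℝ → ℝ → ℝ} (hP : Stp f Pv)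
    (hnn : ∀ t > 0, ∀ z, 0 ≤ Pv t z) {δ w k R z0 q s1 s0 T : ℝ} (hδ : 0 < δ) (hw : 0 ≤ w)
    (hk : k * R = Real.pi / 2) (hk0 : 0 < k) (hR : 0 < R) (hμ : q - w ^ 2 / 4 - k ^ 2 ≤ 0)
    (hs1 : δ * Real.exp (w / 2 * R) ≤ s1) (hf : ∀ s ∈ Icc 0 s1, q * s ≤ f s) (hs0 : 0 < s0)
    (hT : 0 < T) (hini : ∀ z, |z - z0| ≤ R → s1 ≤ Pv s0 z) :
    δ * Real.exp ((q - w ^ 2 / 4 - k ^ 2) * T) ≤ Pv (s0 + T) (z0 + w * T) := by
  set μ := q - w ^ 2 / 4 - k ^ 2 with hμd
  have hSle : ∀ τ, 0 ≤ τ → ∀ z, bx δ μ w k R z0 τ z ≤ s1 := fun τ hτ z =>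
    (bx_le hδ.le hμ hw hR.le hτ z).trans hs1
  have hSnn : ∀ τ z, 0 ≤ bx δ μ w k R z0 τ z := fun τ z => bx_nonneg hδ.le hk hk0 hR.le τ z
  have key := h0 1 K 0 T s1 (fun τ x => Pv (s0 + τ) (x 0) - bx δ μ w k R z0 τ (x 0)) hL.K0.le hT
    ?_ ?_ ?_ ?_ T ⟨hT.le, le_rfl⟩ (EuclideanSpace.single 0 (z0 + w * T))
  · simp only [PiLp.single_apply, if_true] at key
    have h1 : bx δ μ w k R z0 T (z0 + w * T) = δ * Real.exp (μ * T) := by
      rw [bx_in (by rw [show z0 + w * T - z0 - w * T = 0 by ring, abs_zero]; exact hR.le)]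
      unfold bs
      rw [show z0 + w * T - z0 - w * T = 0 by ring]
      simp
    rw [h1] at key
    linarith
  · -- continuity
    apply ContinuousOn.sub
    · have h1 : ContinuousOn (fun p : ℝ × E 1 => ((s0 + p.1, p.2 0) : ℝ × ℝ))
          (Icc 0 T ×ˢ univ) := by
        fun_prop
      have h2 : MapsTo (fun p : ℝ × E 1 => ((s0 + p.1, p.2 0) : ℝ × ℝ)) (Icc 0 T ×ˢ univ)
          (Ioi 0 ×ˢ univ) := by
        rintro ⟨a, b⟩ ⟨ha, _⟩
        refine ⟨?_, mem_univ _⟩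
        simp only [mem_Icc] at ha
        simp only [mem_Ioi]
        linarith [ha.1]
      exact hP.cont.comp h1 h2
    · have h1 : Continuous (fun p : ℝ × E 1 => ((p.1, p.2 0) : ℝ × ℝ)) := by fun_prop
      exact ((continuous_bx δ μ w k R z0).comp h1).continuousOn
  · -- lower bound
    intro t ht x
    have h1 := hnn (s0 + t) (by linarith [ht.1]) (x 0)
    have h2 := hSle t ht.1 (x 0)
    linarith
  · -- differential inequality
    intro t ht x hz
    have htp : 0 < s0 + t := by linarith [ht.1]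
    have hup := hnn (s0 + t) htp (x 0)
    have hin : |x 0 - z0 - w * t| < R := by
      by_contra hneg
      rw [bx_out hk hk0 hR.le (not_lt.1 hneg)] at hz
      linarith
    have hSx : bx δ μ w k R z0 t (x 0) = bs δ μ w k z0 t (x 0) := bx_in hin.le
    have evx : (fun y : E 1 => Pv (s0 + t) (y 0) - bx δ μ w k R z0 t (y 0)) =ᶠ[𝓝 x]
        (fun y : E 1 => (fun z => Pv (s0 + t) z - bs δ μ w k z0 t z) (y 0)) := by
      have hc : Continuous (fun y : E 1 => |y 0 - z0 - w * t|) := by fun_prop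
      filter_upwards [hc.continuousAt.eventually (gt_mem_nhds hin)] with y hy
      rw [bx_in (le_of_lt hy)]
    have evt : (fun τ : ℝ => bx δ μ w k R z0 τ (x 0)) =ᶠ[𝓝 t]
        (fun τ : ℝ => bs δ μ w k z0 τ (x 0)) := by
      have hc : Continuous (fun τ : ℝ => |x 0 - z0 - w * τ|) := by fun_prop
      filter_upwards [hc.continuousAt.eventually (gt_mem_nhds hin)] with τ hτ
      rw [bx_in (le_of_lt hτ)]
    have hC2 : ContDiff ℝ 2 (fun z => Pv (s0 + t) z - bs δ μ w k z0 t z) :=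
      (hP.c2 _ htp).sub (contDiff_bs δ μ w k z0 t)
    have hdS := (bs_t δ μ w k z0 t (x 0)).congr_of_eventuallyEq evt
    have hdP : HasDerivAt (fun τ : ℝ => Pv (s0 + τ) (x 0))
        (deriv (deriv (Pv (s0 + t))) (x 0) + f (Pv (s0 + t) (x 0))) t :=
      (hP.eqn _ htp (x 0)).comp_const_add s0 t
    have hdt := hdP.sub hdS
    refine ⟨?_, hdt.differentiableAt, ?_⟩
    · exact (contDiff_coord hC2).contDiffAt.congr_of_eventuallyEq evx
    · have e2 : Laplacian.laplacian (fun y : E 1 => Pv (s0 + t) (y 0) - bx δ μ w k R z0 t (y 0)) x =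
          deriv (deriv (fun z => Pv (s0 + t) z - bs δ μ w k z0 t z)) (x 0) := by
        rw [(InnerProductSpace.laplacian_congr_nhds evx).eq_of_nhds]
        exact lap_coord hC2 x
      rw [e2]
      have hPd : Differentiable ℝ (Pv (s0 + t)) := (hP.c2 _ htp).differentiable (by norm_num)
      have hPd1 : ContDiff ℝ 1 (deriv (Pv (s0 + t))) := by
        have : ContDiff ℝ (1 + 1) (Pv (s0 + t)) := by rw [one_add_one_eq_two]; exact hP.c2 _ htp
        exact (contDiff_succ_iff_deriv.1 this).2.2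
      have hBd : Differentiable ℝ (bs δ μ w k z0 t) :=
        (contDiff_bs δ μ w k z0 t).differentiable (by norm_num)
      have hBd1 : ContDiff ℝ 1 (deriv (bs δ μ w k z0 t)) := by
        have : ContDiff ℝ (1 + 1) (bs δ μ w k z0 t) := by
          rw [one_add_one_eq_two]; exact contDiff_bs δ μ w k z0 t
        exact (contDiff_succ_iff_deriv.1 this).2.2
      have e3 : deriv (fun z => Pv (s0 + t) z - bs δ μ w k z0 t z) =
          fun z => deriv (Pv (s0 + t)) z - deriv (bs δ μ w k z0 t) z := by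
        funext z
        exact deriv_fun_sub (hPd z) (hBd z)
      have e4 : deriv (deriv (fun z => Pv (s0 + t) z - bs δ μ w k z0 t z)) (x 0) =
          deriv (deriv (Pv (s0 + t))) (x 0) - deriv (deriv (bs δ μ w k z0 t)) (x 0) := by
        rw [e3]
        exact deriv_fun_sub (hPd1.differentiable (by norm_num) _)
          (hBd1.differentiable (by norm_num) _)
      have e5 : deriv (fun τ => Pv (s0 + τ) (x 0) - bx δ μ w k R z0 τ (x 0)) t =
          deriv (deriv (Pv (s0 + t))) (x 0) + f (Pv (s0 + t) (x 0)) -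
            ((μ + w ^ 2 / 2) * bs δ μ w k z0 t (x 0) + w * k * bn δ μ w k z0 t (x 0)) := hdt.deriv
      rw [e4, e5, bs_zz, hSx]
      rw [hSx] at hz
      have h3 := hL.lip (Pv (s0 + t) (x 0)) (bs δ μ w k z0 t (x 0))
      rw [abs_of_neg hz] at h3
      have h4 := (abs_le.1 h3).1
      have h5 := hf (bs δ μ w k z0 t (x 0)) ⟨by rw [← hSx]; exact hSnn _ _,
        by rw [← hSx]; exact hSle t ht.1.le _⟩
      have h6 : μ + w ^ 2 / 4 + k ^ 2 = q := by rw [hμd]; ring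
      have h7 : (μ + w ^ 2 / 2) * bs δ μ w k z0 t (x 0) + w * k * bn δ μ w k z0 t (x 0) -
          ((w ^ 2 / 4 - k ^ 2) * bs δ μ w k z0 t (x 0) + w * k * bn δ μ w k z0 t (x 0)) =
          q * bs δ μ w k z0 t (x 0) := by
        rw [← h6]; ring
      linarith [h4, h5, h7]
  · -- initial time
    intro x
    simp only
    rw [add_zero]
    by_cases hx : |x 0 - z0| ≤ R
    · have h1 := hini (x 0) hx
      have h2 := hSle 0 le_rfl (x 0)
      linarith
    · have h1 : bx δ μ w k R z0 0 (x 0) = 0 := by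
        apply bx_out hk hk0 hR.le
        rw [mul_zero, sub_zero]
        exact (not_le.1 hx).le
      rw [h1, sub_zero]
      exact hnn s0 hs0 (x 0)

/-- behaviour of `f` at zero -/
theorem near_zero {f : ℝ → ℝ} (hf : Reaction f) {ε : ℝ} (hε : 0 < ε) :
    ∃ s1 > 0, ∀ s ∈ Icc 0 s1, (fp f 0 - ε) * s ≤ f s := by
  have h1 : DifferentiableWithinAt ℝ f (Icc 0 1) 0 :=
    (hf.smooth.differentiableOn (by norm_num)) 0 ⟨le_rfl, zero_le_one⟩
  have h2 : HasDerivWithinAt f (fp f 0) (Icc 0 1) 0 := h1.hasDerivWithinAt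
  have h3 := h2.isLittleO
  have h4 := h3.def hε
  rw [eventually_nhdsWithin_iff, Metric.eventually_nhds_iff] at h4
  obtain ⟨r, hr, h5⟩ := h4
  refine ⟨min (r / 2) 1, lt_min (by linarith) one_pos, ?_⟩
  intro s hs
  have hs1 : s ≤ r / 2 := hs.2.trans (min_le_left _ _)
  have hs2 : s ≤ 1 := hs.2.trans (min_le_right _ _)
  have h6 := h5 (y := s) (by rw [Real.dist_eq, sub_zero, abs_of_nonneg hs.1]; linarith) ⟨hs.1, hs2⟩
  rw [hf.zero, sub_zero, sub_zero, Real.norm_eq_abs, Real.norm_eq_abs, abs_of_nonneg hs.1,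
    smul_eq_mul] at h6
  have h7 := (abs_le.1 h6).1
  nlinarith

theorem LBX (h0 : T_MP0) (h1 : T_PSTG) (h2 : T_MA) : T_LBX := by
  intro f K J b c y Pv hf hL hT hP hc ε hε
  have hc0 : 0 < c 0 := (hT.ext 0 hT.J0).cpos
  have hb1 : 0 < b 1 := by
    have := hT.lt 0 hT.J0
    rw [hT.b0] at this
    exact this
  -- nonnegativity
  have hnn : ∀ t > 0, ∀ z, 0 ≤ Pv t z := by
    intro t ht z
    have hanti : Antitone (Pv t) := by
      apply antitone_of_deriv_nonpos ((hP.c2 t ht).differentiable (by norm_num))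
      intro z
      exact (hP.neg t ht z).le
    exact hanti.le_of_tendsto (hP.top t ht) z
  obtain ⟨hStg, hdist⟩ := h1 f K J b c y Pv hf hL hT hP
  obtain ⟨s1', hs1', hf1'⟩ := near_zero hf (ε := ε / 4) (by linarith)
  set s1 : ℝ := min s1' (b 1 / 2) with hs1d
  have hs1 : 0 < s1 := lt_min hs1' (by linarith)
  have hf1 : ∀ s ∈ Icc 0 s1, (fp f 0 - ε / 4) * s ≤ f s := fun s hs =>
    hf1' s ⟨hs.1, hs.2.trans (min_le_left _ _)⟩
  -- the small parameter
  set e1 : ℝ := min (min (1 / 2) (c 0)) (min (b 1 / 2) (ε / (5 + 2 * c 0))) with he1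
  have h5c : 0 < 5 + 2 * c 0 := by linarith
  have he1p : 0 < e1 := by
    refine lt_min (lt_min (by norm_num) hc0) (lt_min (by linarith) ?_)
    positivity
  have he1a : e1 ≤ 1 / 2 := (min_le_left _ _).trans (min_le_left _ _)
  have he1b : e1 ≤ c 0 := (min_le_left _ _).trans (min_le_right _ _)
  have he1c : e1 ≤ b 1 / 2 := (min_le_right _ _).trans (min_le_left _ _)
  have he1d : e1 * (5 + 2 * c 0) ≤ ε := by
    have : e1 ≤ ε / (5 + 2 * c 0) := (min_le_right _ _).trans (min_le_right _ _)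
    exact (le_div_iff₀ h5c).1 this
  obtain ⟨T0, hT0, hMA⟩ := h2 1 f K _ _ J b c y hStg hT 0 hT.J0 e1 he1p
  -- the box
  set R : ℝ := Real.pi / √ε with hRd
  have hsq : 0 < √ε := Real.sqrt_pos.2 hε
  have hR : 0 < R := by rw [hRd]; positivity
  set k : ℝ := √ε / 2 with hkd
  have hk0 : 0 < k := by rw [hkd]; positivity
  have hkR : k * R = Real.pi / 2 := by
    rw [hkd, hRd]; field_simp
  have hk2 : k ^ 2 = ε / 4 := by
    rw [hkd, div_pow, Real.sq_sqrt hε.le]; norm_num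
  set δ : ℝ := s1 * Real.exp (-((c 0 + 4) / 2 * R)) with hδd
  have hδ : 0 < δ := by rw [hδd]; positivity
  set L : ℝ := |Real.log δ| with hLd
  refine ⟨max (max 1 (2 * T0)) (max (2 * R / e1) (4 * L / ε)), ?_, ?_⟩
  · exact lt_of_lt_of_le one_pos ((le_max_left _ _).trans (le_max_left _ _))
  intro t ht η hη
  have ht1 : 1 ≤ t := ((le_max_left _ _).trans (le_max_left _ _)).trans ht
  have ht2 : 2 * T0 ≤ t := ((le_max_right _ _).trans (le_max_left _ _)).trans ht
  have ht3 : 2 * R / e1 ≤ t := ((le_max_left _ _).trans (le_max_right _ _)).trans ht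
  have ht4 : 4 * L / ε ≤ t := ((le_max_right _ _).trans (le_max_right _ _)).trans ht
  have htp : 0 < t := by linarith
  have ht3' : 2 * R ≤ t * e1 := (div_le_iff₀ he1p).1 ht3
  have ht4' : 4 * L ≤ t * ε := (div_le_iff₀ hε).1 ht4
  obtain ⟨hη0, hη1⟩ := hη
  set s0 : ℝ := t / 2 with hs0d
  have hs0 : 0 < s0 := by rw [hs0d]; linarith
  set z0 : ℝ := (c 0 - e1) * s0 - R with hz0d
  set et : ℝ := e1 + 2 * R / t with hetd
  have het0 : 0 ≤ et := by rw [hetd]; positivity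
  have het1 : et ≤ 2 * e1 := by
    have : 2 * R / t ≤ e1 := by
      rw [div_le_iff₀ htp]; linarith
    rw [hetd]; linarith
  set w : ℝ := c 0 + 2 * η + et with hwd
  have hw0 : 0 ≤ w := by rw [hwd]; linarith
  have hwc : c 0 ≤ w := by rw [hwd]; linarith
  have hw4 : w ≤ c 0 + 4 := by rw [hwd]; linarith
  have hzw : z0 + w * s0 = (c 0 + η) * t := by
    rw [hz0d, hwd, hetd, hs0d]; field_simp; ring
  have hq : fp f 0 = c 0 ^ 2 / 4 := by linarith
  have hμ : fp f 0 - ε / 4 - w ^ 2 / 4 - k ^ 2 ≤ 0 := by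
    rw [hq, hk2]
    have h := pow_le_pow_left₀ hc0.le hwc 2
    linarith
  have hs1le : δ * Real.exp (w / 2 * R) ≤ s1 := by
    rw [hδd, mul_assoc, ← Real.exp_add]
    have : Real.exp (-((c 0 + 4) / 2 * R) + w / 2 * R) ≤ 1 := by
      apply Real.exp_le_one_iff.2
      have h := mul_le_mul_of_nonneg_right hw4 hR.le
      linarith
    exact mul_le_of_le_one_right hs1.le this
  have hini : ∀ z, |z - z0| ≤ R → s1 ≤ Pv s0 z := by
    intro z hz
    have h3 := hMA s0 (by rw [hs0d]; linarith) (EuclideanSpace.single 0 z) (by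
      rw [hdist]
      simp only [PiLp.single_apply, if_true]
      apply max_le
      · have := (abs_le.1 hz).2
        rw [hz0d] at this
        linarith
      · apply mul_nonneg (by linarith) hs0.le)
    simp only [PiLp.single_apply, if_true, zero_add] at h3
    have h4 : s1 ≤ b 1 / 2 := min_le_right _ _
    linarith
  have key := compare h0 hL hP hnn (z0 := z0) hδ hw0 hkR hk0 hR hμ hs1le hf1 hs0 hs0 hini
  rw [hzw, show s0 + s0 = t by rw [hs0d]; ring] at key
  refine le_trans ?_ key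
  have hδe : δ = Real.exp (Real.log δ) := (Real.exp_log hδ).symm
  rw [hδe, ← Real.exp_add]
  apply Real.exp_le_exp.2
  rw [hq, hk2]
  have hlog : -L ≤ Real.log δ := neg_abs_le _
  have hexp : c 0 ^ 2 / 4 - ε / 4 - w ^ 2 / 4 - ε / 4 =
      -(c 0 * η + η ^ 2) - (4 * η + 2 * c 0 + et) * et / 4 - ε / 2 := by
    rw [hwd]; ring
  rw [hexp]
  have hA : (4 * η + 2 * c 0 + et) * et ≤ 2 * ε := by
    have g1 : 4 * η + 2 * c 0 + et ≤ 5 + 2 * c 0 := by linarith
    have g2 : (4 * η + 2 * c 0 + et) * et ≤ (5 + 2 * c 0) * (2 * e1) :=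
      mul_le_mul g1 het1 het0 (by linarith)
    linarith
  have hB : (-(c 0 * η + η ^ 2) - (4 * η + 2 * c 0 + et) * et / 4 - ε / 2) * s0 ≥
      -((c 0 * η / 2 + η ^ 2 / 2) * t) - ε * t / 2 := by
    rw [hs0d]
    have h := mul_le_mul_of_nonneg_right hA htp.le
    linarith
  have hC : 0 < ε * t := mul_pos hε htp
  linarith

end Pool.Agent.H31.RF
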